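import Pool.Agent.H20.Heat.Basic

/-!
Module B1 of project HEAT: weighted complex time bound.
-/

namespace Pool.Agent.H20.Heat

open MeasureTheory ProbabilityTheory Pool.Agent.H58.Heat
open Pool.Agent.H13.Heat (GB1 GB2 GB5 GB6)

variable {n : ℕ}

theorem ptwise (x y a b p q h : ℝ) (hx : 0 < x) :
    -x * (p * (p + 2 * a * h)) + y * (q * (p + 2 * a * h)) - x * (q * (q + 2 * b * h)) -
        y * (p * (q + 2 * b * h)) ≤
      h ^ 2 * ((x ^ 2 + y ^ 2) / x * (a ^ 2 + b ^ 2)) := by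
  have h1 : h ^ 2 * ((x ^ 2 + y ^ 2) / x * (a ^ 2 + b ^ 2)) -
      (-x * (p * (p + 2 * a * h)) + y * (q * (p + 2 * a * h)) - x * (q * (q + 2 * b * h)) -
        y * (p * (q + 2 * b * h))) =
      ((x * p + h * (x * a + y * b)) ^ 2 + (x * q + h * (x * b - y * a)) ^ 2) / x := by
    field_simp
    ring
  have h2 : 0 ≤ ((x * p + h * (x * a + y * b)) ^ 2 + (x * q + h * (x * b - y * a)) ^ 2) / x := by
    positivity
  linarith

theorem int4 {A B C D : E n → ℝ} (hA : Integrable A (gm n)) (hB : Integrable B (gm n))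
    (hC : Integrable C (gm n)) (hD : Integrable D (gm n)) (x y : ℝ) :
    Integrable (fun u => -x * A u + y * B u - x * C u - y * D u) (gm n) ∧
    -x * ∫ u, A u ∂gm n + y * ∫ u, B u ∂gm n - x * ∫ u, C u ∂gm n - y * ∫ u, D u ∂gm n =
      ∫ u, (-x * A u + y * B u - x * C u - y * D u) ∂gm n := by
  have h1 : Integrable (fun u => -x * A u + y * B u) (gm n) :=
    (hA.const_mul _).add (hB.const_mul _)
  have h2 : Integrable (fun u => -x * A u + y * B u - x * C u) (gm n) :=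
    h1.sub (hC.const_mul _)
  refine ⟨h2.sub (hD.const_mul _), ?_⟩
  rw [integral_sub h2 (hD.const_mul _), integral_sub h1 (hC.const_mul _),
    integral_add (hA.const_mul _) (hB.const_mul _), integral_const_mul, integral_const_mul,
    integral_const_mul, integral_const_mul]

theorem energy {ψ : E n → ℝ} (hψ : ContDiff ℝ 1 ψ) {α : ℝ}
    (hα : ∀ x, ‖fderiv ℝ ψ x‖ ≤ α) {a b : E n → ℝ} (ha : IsPoly a) (hb : IsPoly b) (x y : ℝ)
    (hx : 0 < x) :
    -x * BB ψ a (NN a) + y * BB ψ a (NN b) - x * BB ψ b (NN b) - y * BB ψ b (NN a) ≤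
      α ^ 2 * ((x ^ 2 + y ^ 2) / x) * (BB ψ a a + BB ψ b b) := by
  have i1 := JJ_int hψ hα ha ha 2
  have i2 := JJ_int hψ hα hb ha 2
  have i3 := JJ_int hψ hα hb hb 2
  have i4 := JJ_int hψ hα ha hb 2
  have hi : ∀ b : E n → ℝ, Pool.Agent.H58.Heat.IsPoly b →
      Integrable (fun x => Real.exp (2 * ψ x) * (b x * b x)) (gm n) :=
    fun b hb => poly_int hψ hα 2 ((GB5 b hb).1.continuous.mul (GB5 b hb).1.continuous)
      (EG.mul (GB5 b hb).2.1 (GB5 b hb).2.1)
  rw [BB_NN hψ hα ha ha, BB_NN hψ hα hb ha, BB_NN hψ hα hb hb, BB_NN hψ hα ha hb]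
  obtain ⟨hI, hE⟩ := int4 i1 i2 i3 i4 x y
  rw [hE]
  unfold BB
  rw [← integral_add (hi a ha) (hi b hb), ← integral_const_mul]
  apply integral_mono hI
  · exact ((hi a ha).add (hi b hb)).const_mul _
  intro u
  have hE := Real.exp_pos (2 * ψ u)
  have key : ∀ i, Real.exp (2 * ψ u) * (-x * (pd a i u * (pd a i u + 2 * a u * pd ψ i u)) +
      y * (pd b i u * (pd a i u + 2 * a u * pd ψ i u)) -
      x * (pd b i u * (pd b i u + 2 * b u * pd ψ i u)) -
        y * (pd a i u * (pd b i u + 2 * b u * pd ψ i u))) ≤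
      Real.exp (2 * ψ u) * (pd ψ i u ^ 2 * ((x ^ 2 + y ^ 2) / x * (a u ^ 2 + b u ^ 2))) :=
    fun i => mul_le_mul_of_nonneg_left (ptwise x y (a u) (b u) _ _ _ hx) hE.le
  have hsum := Finset.sum_le_sum fun i (_ : i ∈ Finset.univ) => key i
  have hsq := sum_pd_sq hα u
  have hlhs : -x * JJ ψ 2 a a u + y * JJ ψ 2 b a u - x * JJ ψ 2 b b u - y * JJ ψ 2 a b u =
      ∑ i, Real.exp (2 * ψ u) * (-x * (pd a i u * (pd a i u + 2 * a u * pd ψ i u)) +
      y * (pd b i u * (pd a i u + 2 * a u * pd ψ i u)) -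
      x * (pd b i u * (pd b i u + 2 * b u * pd ψ i u)) -
        y * (pd a i u * (pd b i u + 2 * b u * pd ψ i u))) := by
    unfold JJ
    simp only [Finset.mul_sum]
    rw [← Finset.sum_add_distrib, ← Finset.sum_sub_distrib, ← Finset.sum_sub_distrib]
    refine Finset.sum_congr rfl fun i _ => ?_
    ring
  have hrhs : ∑ i, Real.exp (2 * ψ u) * (pd ψ i u ^ 2 *
      ((x ^ 2 + y ^ 2) / x * (a u ^ 2 + b u ^ 2))) =
      (∑ i, pd ψ i u ^ 2) * (Real.exp (2 * ψ u) *
        ((x ^ 2 + y ^ 2) / x * (a u ^ 2 + b u ^ 2))) := by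
    rw [Finset.sum_mul]
    refine Finset.sum_congr rfl fun i _ => ?_
    ring
  have hnn : 0 ≤ Real.exp (2 * ψ u) * ((x ^ 2 + y ^ 2) / x * (a u ^ 2 + b u ^ 2)) := by
    positivity
  calc _ = -x * JJ ψ 2 a a u + y * JJ ψ 2 b a u - x * JJ ψ 2 b b u - y * JJ ψ 2 a b u := rfl
    _ ≤ (∑ i, pd ψ i u ^ 2) * (Real.exp (2 * ψ u) *
        ((x ^ 2 + y ^ 2) / x * (a u ^ 2 + b u ^ 2))) := by rw [hlhs, ← hrhs]; exact hsum
    _ ≤ α ^ 2 * (Real.exp (2 * ψ u) *
        ((x ^ 2 + y ^ 2) / x * (a u ^ 2 + b u ^ 2))) := mul_le_mul_of_nonneg_right hsq hnn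
    _ = _ := by ring

/-- real and imaginary parts of the coefficients -/
noncomputable def cr (z : ℂ) (s : ℝ) (k : ℕ) : ℝ :=
  Real.exp (-(s * k * z.re)) * Real.cos (s * k * z.im)

noncomputable def ci (z : ℂ) (s : ℝ) (k : ℕ) : ℝ :=
  -(Real.exp (-(s * k * z.re)) * Real.sin (s * k * z.im))

theorem cr_deriv (z : ℂ) (s : ℝ) (k : ℕ) :
    HasDerivAt (fun s => cr z s k) (-z.re * (k * cr z s k) + z.im * (k * ci z s k)) s := by
  have h1 : HasDerivAt (fun s : ℝ => s * k * z.re) (1 * k * z.re) s :=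
    ((hasDerivAt_id s).mul_const _).mul_const _
  have h2 : HasDerivAt (fun s : ℝ => s * k * z.im) (1 * k * z.im) s :=
    ((hasDerivAt_id s).mul_const _).mul_const _
  have h3 := h1.fun_neg.exp.mul h2.cos
  refine h3.congr_deriv ?_
  unfold cr ci
  ring

theorem ci_deriv (z : ℂ) (s : ℝ) (k : ℕ) :
    HasDerivAt (fun s => ci z s k) (-z.re * (k * ci z s k) - z.im * (k * cr z s k)) s := by
  have h1 : HasDerivAt (fun s : ℝ => s * k * z.re) (1 * k * z.re) s :=
    ((hasDerivAt_id s).mul_const _).mul_const _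
  have h2 : HasDerivAt (fun s : ℝ => s * k * z.im) (1 * k * z.im) s :=
    ((hasDerivAt_id s).mul_const _).mul_const _
  have h3 := (h1.fun_neg.exp.mul h2.sin).fun_neg
  refine h3.congr_deriv ?_
  unfold cr ci
  ring

theorem cexp_eq (z : ℂ) (k : ℕ) : Complex.exp (-(z * k)) = ⟨cr z 1 k, ci z 1 k⟩ := by
  apply Complex.ext
  · rw [Complex.exp_re]
    simp [cr, mul_comm]
  · rw [Complex.exp_im]
    simp [ci, mul_comm]

theorem B1 {n : ℕ} (K : ℕ) (fk : ℕ → E n → ℝ) (hp : ∀ k, IsPoly (fk k))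
    (hN : ∀ k x, NN (fk k) x = k * fk k x) (ψ : E n → ℝ) (hψ : ContDiff ℝ 1 ψ) (α : ℝ)
    (hα : ∀ x, ‖fderiv ℝ ψ x‖ ≤ α) (z : ℂ) (hz : 0 < z.re) :
    ∫ x, Real.exp (2 * ψ x) *
        ‖∑ k ∈ Finset.range K, Complex.exp (-(z * k)) * (fk k x : ℂ)‖ ^ 2 ∂gm n ≤
      Real.exp (2 * (α ^ 2 * ‖z‖ ^ 2 / z.re)) *
        ∫ x, Real.exp (2 * ψ x) * (∑ k ∈ Finset.range K, fk k x) ^ 2 ∂gm n := by
  set R : ℝ := 2 * (α ^ 2 * ‖z‖ ^ 2 / z.re) with hR
  have hzz : ‖z‖ ^ 2 = z.re ^ 2 + z.im ^ 2 := by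
    rw [← Complex.normSq_eq_norm_sq, Complex.normSq_apply]; ring
  let V : ℝ → ℝ := fun s => BB ψ (comb K fk (cr z s)) (comb K fk (cr z s)) +
    BB ψ (comb K fk (ci z s)) (comb K fk (ci z s))
  let a : ℝ → E n → ℝ := fun s => comb K fk (cr z s)
  let b : ℝ → E n → ℝ := fun s => comb K fk (ci z s)
  have ha : ∀ s, Pool.Agent.H58.Heat.IsPoly (a s) := fun s => isPoly_comb hp _
  have hb : ∀ s, Pool.Agent.H58.Heat.IsPoly (b s) := fun s => isPoly_comb hp _
  have hV : ∀ s, HasDerivAt V (2 * (-z.re * BB ψ (a s) (NN (a s)) + z.im * BB ψ (a s) (NN (b s))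
      - z.re * BB ψ (b s) (NN (b s)) - z.im * BB ψ (b s) (NN (a s)))) s := by
    intro s
    have h1 := BB_deriv hψ hα (K := K) hp (cr z)
      (fun s k => -z.re * (k * cr z s k) + z.im * (k * ci z s k)) (fun s k => cr_deriv z s k) s
    have h2 := BB_deriv hψ hα (K := K) hp (ci z)
      (fun s k => -z.re * (k * ci z s k) - z.im * (k * cr z s k)) (fun s k => ci_deriv z s k) s
    have h3 := h1.add h2
    refine h3.congr_deriv ?_
    have e1 : comb K fk (fun k => -z.re * (k * cr z s k) + z.im * (k * ci z s k)) =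
        fun x => -z.re * NN (a s) x + z.im * NN (b s) x := by
      funext x
      simp only [a, b]
      rw [NN_comb hp hN, NN_comb hp hN]
      unfold comb
      rw [Finset.mul_sum, Finset.mul_sum, ← Finset.sum_add_distrib]
      refine Finset.sum_congr rfl fun k _ => ?_
      ring
    have e2 : comb K fk (fun k => -z.re * (k * ci z s k) - z.im * (k * cr z s k)) =
        fun x => -z.re * NN (b s) x + (-z.im) * NN (a s) x := by
      funext x
      simp only [a, b]
      rw [NN_comb hp hN, NN_comb hp hN]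
      unfold comb
      rw [Finset.mul_sum, Finset.mul_sum, ← Finset.sum_add_distrib]
      refine Finset.sum_congr rfl fun k _ => ?_
      ring
    rw [e1, e2]
    have e3 := BB_lin hψ hα (ha s) (GB5 _ (ha s)).2.2.2.2 (GB5 _ (hb s)).2.2.2.2 (-z.re) z.im
    have e4 := BB_lin hψ hα (hb s) (GB5 _ (hb s)).2.2.2.2 (GB5 _ (ha s)).2.2.2.2 (-z.re) (-z.im)
    simp only [a, b] at e3 e4 ⊢
    rw [e3, e4]
    ring
  have hW : Antitone (fun s => Real.exp (-(R * s)) * V s) := by
    have hd : ∀ s, HasDerivAt (fun s => Real.exp (-(R * s)) * V s)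
        (Real.exp (-(R * s)) * (-(R * 1)) * V s + Real.exp (-(R * s)) *
          (2 * (-z.re * BB ψ (a s) (NN (a s)) + z.im * BB ψ (a s) (NN (b s))
      - z.re * BB ψ (b s) (NN (b s)) - z.im * BB ψ (b s) (NN (a s))))) s := by
      intro s
      exact (((hasDerivAt_id s).const_mul R).fun_neg.exp).mul (hV s)
    apply antitone_of_deriv_nonpos
    · exact fun s => (hd s).differentiableAt
    · intro s
      rw [(hd s).deriv]
      have h1 := energy hψ hα (ha s) (hb s) z.re z.im hz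
      have h2 : α ^ 2 * ((z.re ^ 2 + z.im ^ 2) / z.re) = R / 2 := by
        rw [hR, hzz]; ring
      rw [h2] at h1
      have h3 := Real.exp_pos (-(R * s))
      have h4 : V s = BB ψ (a s) (a s) + BB ψ (b s) (b s) := rfl
      rw [← h4] at h1
      nlinarith
  have hfin := hW (zero_le_one (α := ℝ))
  simp only [mul_one, mul_zero, neg_zero, Real.exp_zero, one_mul] at hfin
  have h5 : V 1 ≤ Real.exp R * V 0 := by
    have h6 := mul_le_mul_of_nonneg_left hfin (Real.exp_pos R).le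
    rwa [← mul_assoc, ← Real.exp_add, add_neg_cancel, Real.exp_zero, one_mul] at h6
  have hi : ∀ b : E n → ℝ, Pool.Agent.H58.Heat.IsPoly b →
      Integrable (fun x => Real.exp (2 * ψ x) * (b x * b x)) (gm n) :=
    fun b hb => poly_int hψ hα 2 ((GB5 b hb).1.continuous.mul (GB5 b hb).1.continuous)
      (EG.mul (GB5 b hb).2.1 (GB5 b hb).2.1)
  have hV1 : V 1 = ∫ x, Real.exp (2 * ψ x) *
        ‖∑ k ∈ Finset.range K, Complex.exp (-(z * k)) * (fk k x : ℂ)‖ ^ 2 ∂gm n := by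
    simp only [V]
    unfold BB
    rw [← integral_add (hi _ (ha 1)) (hi _ (hb 1))]
    congr 1
    funext x
    rw [← Complex.normSq_eq_norm_sq, Complex.normSq_apply]
    have r1 : (∑ k ∈ Finset.range K, Complex.exp (-(z * k)) * (fk k x : ℂ)).re =
        comb K fk (cr z 1) x := by
      rw [Complex.re_sum]
      unfold comb
      refine Finset.sum_congr rfl fun k _ => ?_
      rw [cexp_eq]
      simp
    have r2 : (∑ k ∈ Finset.range K, Complex.exp (-(z * k)) * (fk k x : ℂ)).im =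
        comb K fk (ci z 1) x := by
      rw [Complex.im_sum]
      unfold comb
      refine Finset.sum_congr rfl fun k _ => ?_
      rw [cexp_eq]
      simp
    rw [r1, r2]
    ring
  have hV0 : V 0 = ∫ x, Real.exp (2 * ψ x) * (∑ k ∈ Finset.range K, fk k x) ^ 2 ∂gm n := by
    have z1 : comb K fk (cr z 0) = fun x => ∑ k ∈ Finset.range K, fk k x := by
      funext x; simp [comb, cr]
    have z2 : comb K fk (ci z 0) = fun _ => 0 := by
      funext x; simp [comb, ci]
    simp only [V]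
    rw [z1, z2]
    unfold BB
    simp only [mul_zero, integral_zero, add_zero]
    congr 1
    funext x
    ring
  rw [← hV1, ← hV0]
  exact h5

end Pool.Agent.H20.Heat
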