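import Pool.Agent.H20.Heat.Basic

/-!
Module B2 of project HEAT: weighted energy estimate.
-/

namespace Pool.Agent.H20.Heat

open MeasureTheory ProbabilityTheory Pool.Agent.H58.Heat
open Pool.Agent.H13.Heat (GB1 GB2 GB5 GB6)

variable {n : ℕ}

theorem optim (X P R : ℝ) (hP : 0 ≤ P) (hR : 0 ≤ R)
    (h : ∀ c : ℝ, 0 < c → X ≤ P / (2 * c) + c * R / 2) : X ≤ Real.sqrt (P * R) := by
  by_cases hX : X ≤ 0
  · exact hX.trans (Real.sqrt_nonneg _)
  push Not at hX
  apply Real.le_sqrt_of_sq_le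
  have h2 : ∀ c : ℝ, 0 < c → 2 * c * X ≤ P + c ^ 2 * R := by
    intro c hc
    have h3 := mul_le_mul_of_nonneg_left (h c hc) (show (0 : ℝ) ≤ 2 * c by positivity)
    have h4 : 2 * c * (P / (2 * c) + c * R / 2) = P + c ^ 2 * R := by
      field_simp
    linarith
  rcases hR.eq_or_lt with h0 | h0
  · exfalso
    have h3 := h2 ((P + 1) / (2 * X)) (by positivity)
    rw [← h0] at h3
    have h4 : 2 * ((P + 1) / (2 * X)) * X = P + 1 := by field_simp
    linarith
  · have h3 := h2 (X / R) (by positivity)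
    have h4 : 2 * (X / R) * X = 2 * X ^ 2 / R := by ring
    have h5 : (X / R) ^ 2 * R = X ^ 2 / R := by field_simp
    rw [h4, h5] at h3
    have h6 : X ^ 2 / R ≤ P := by
      have : 2 * X ^ 2 / R = X ^ 2 / R + X ^ 2 / R := by ring
      linarith
    rwa [div_le_iff₀ h0] at h6

/-- weighted square of the gradient -/
noncomputable def AA (ψ : E n → ℝ) (c : ℝ) (a : E n → ℝ) (x : E n) : ℝ :=
  Real.exp (c * ψ x) * ∑ i, pd a i x ^ 2

theorem AA_int {ψ : E n → ℝ} (hψ : ContDiff ℝ 1 ψ) {α : ℝ}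
    (hα : ∀ x, ‖fderiv ℝ ψ x‖ ≤ α) (c : ℝ) {a : E n → ℝ} (ha : ContDiff ℝ 1 a)
    (h1 : EG (fderiv ℝ a)) : Integrable (AA ψ c a) (gm n) := by
  apply poly_int hψ hα c
  · exact continuous_finsetSum _ fun i _ => (pd_cont ha i).pow 2
  · have h2 := EG.mul (EG.norm h1) (EG.norm h1)
    refine EG.mono' h2 fun x => ?_
    have h3 := (GB6 a a x).2
    unfold gd at h3
    have h4 : ∑ i, pd a i x ^ 2 = ‖fderiv ℝ a x‖ * ‖fderiv ℝ a x‖ := by
      rw [← pow_two, ← h3]
      exact Finset.sum_congr rfl fun i _ => by ring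
    rw [h4]

theorem gd_int {a u : E n → ℝ} (ha : ContDiff ℝ 1 a) (hu : ContDiff ℝ 1 u)
    (ha1 : EG (fderiv ℝ a)) (hu1 : EG (fderiv ℝ u)) : Integrable (gd a u) (gm n) := by
  apply GB1
  · exact (continuous_finsetSum _ fun i _ =>
      (pd_cont ha i).mul (pd_cont hu i)).aestronglyMeasurable
  · refine EG.mono' (EG.mul (EG.norm ha1) (EG.norm hu1)) fun x => ?_
    rw [Real.norm_eq_abs, norm_mul, norm_norm, norm_norm]
    exact (GB6 a u x).1

/-- derivative of the weighted norm along the real semigroup -/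
theorem decay {ψ : E n → ℝ} (hψ : ContDiff ℝ 1 ψ) {α : ℝ}
    (hα : ∀ x, ‖fderiv ℝ ψ x‖ ≤ α) {a : E n → ℝ} (ha : IsPoly a) :
    ∫ x, AA ψ 2 a x ∂gm n ≤ 2 * BB ψ a (NN a) + 4 * α ^ 2 * BB ψ a a := by
  have i1 := JJ_int hψ hα ha ha 2
  have i2 := AA_int hψ hα 2 (isPoly_cd ha 1) (GB5 a ha).2.2.1
  have i3 : Integrable (fun x => Real.exp (2 * ψ x) * (a x * a x)) (gm n) :=
    poly_int hψ hα 2 ((GB5 a ha).1.continuous.mul (GB5 a ha).1.continuous)
      (EG.mul (GB5 a ha).2.1 (GB5 a ha).2.1)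
  rw [BB_NN hψ hα ha ha]
  unfold BB
  rw [← integral_const_mul, ← integral_const_mul, ← integral_add (i1.const_mul 2)
    (i3.const_mul _)]
  apply integral_mono i2
  · exact (i1.const_mul 2).add (i3.const_mul _)
  intro x
  have hE := Real.exp_pos (2 * ψ x)
  have hsq := sum_pd_sq hα x
  have h1 : ∀ i, Real.exp (2 * ψ x) * pd a i x ^ 2 ≤
      2 * (Real.exp (2 * ψ x) * (pd a i x * (pd a i x + 2 * a x * pd ψ i x))) +
        Real.exp (2 * ψ x) * (4 * (a x * a x)) * pd ψ i x ^ 2 := by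
    intro i
    nlinarith [mul_nonneg hE.le (sq_nonneg (pd a i x + 2 * a x * pd ψ i x))]
  have h2 := Finset.sum_le_sum fun i (_ : i ∈ Finset.univ) => h1 i
  rw [Finset.sum_add_distrib] at h2
  simp only [← Finset.mul_sum] at h2
  have h3 : Real.exp (2 * ψ x) * (4 * (a x * a x)) * ∑ i, pd ψ i x ^ 2 ≤
      Real.exp (2 * ψ x) * (4 * (a x * a x)) * α ^ 2 :=
    mul_le_mul_of_nonneg_left hsq (mul_nonneg hE.le (by nlinarith [mul_self_nonneg (a x)]))
  have h4 : AA ψ 2 a x = Real.exp (2 * ψ x) * ∑ i, pd a i x ^ 2 := rfl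
  have h5 : JJ ψ 2 a a x = ∑ i, Real.exp (2 * ψ x) *
      (pd a i x * (pd a i x + 2 * a x * pd ψ i x)) := rfl
  show AA ψ 2 a x ≤ 2 * JJ ψ 2 a a x + 4 * α ^ 2 * (Real.exp (2 * ψ x) * (a x * a x))
  rw [h4, h5, ← Finset.mul_sum]
  linarith

theorem gd_le {ψ : E n → ℝ} (a u : E n → ℝ) (x : E n) (c : ℝ) (hc : 0 < c) (σ : ℝ)
    (hσ : σ ^ 2 = 1) :
    σ * gd a u x ≤ 1 / (2 * c) * AA ψ 2 a x + c / 2 * AA ψ (-2) u x := by
  unfold gd AA
  rw [Finset.mul_sum, Finset.mul_sum, Finset.mul_sum, Finset.mul_sum, Finset.mul_sum,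
    ← Finset.sum_add_distrib]
  apply Finset.sum_le_sum
  intro i _
  have e1 : Real.exp (2 * ψ x) = Real.exp (ψ x) ^ 2 := by rw [← Real.exp_nat_mul]; norm_num
  have e2 : Real.exp (-2 * ψ x) = Real.exp (-ψ x) ^ 2 := by
    rw [← Real.exp_nat_mul]; congr 1; push_cast; ring
  have e3 : Real.exp (ψ x) * Real.exp (-ψ x) = 1 := by rw [← Real.exp_add]; simp
  rw [e1, e2]
  set A := Real.exp (ψ x)
  set B := Real.exp (-ψ x)
  set p := pd a i x
  set q := pd u i x
  have h1 : 1 / (2 * c) * (A ^ 2 * p ^ 2) + c / 2 * (B ^ 2 * q ^ 2) - (A * B) * (σ * (p * q)) =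
      (A * p - c * σ * (B * q)) ^ 2 / (2 * c) := by
    have : c / 2 * (B ^ 2 * q ^ 2) = σ ^ 2 * (c / 2 * (B ^ 2 * q ^ 2)) := by rw [hσ, one_mul]
    rw [this]
    field_simp
    ring
  rw [e3] at h1
  have h2 : 0 ≤ (A * p - c * σ * (B * q)) ^ 2 / (2 * c) := by positivity
  linarith

theorem B2 {n : ℕ} (K : ℕ) (fk : ℕ → E n → ℝ) (hp : ∀ k, IsPoly (fk k))
    (hN : ∀ k x, NN (fk k) x = k * fk k x) (ψ : E n → ℝ) (hψ : ContDiff ℝ 1 ψ) (α : ℝ)
    (hα : ∀ x, ‖fderiv ℝ ψ x‖ ≤ α) (u : E n → ℝ) (hu : ContDiff ℝ 1 u) (h0 : EG u)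
    (h1 : EG (fderiv ℝ u)) (τ : ℝ) (hτ : 0 ≤ τ) :
    |∫ x, (∑ k ∈ Finset.range K, (1 - Real.exp (-(τ * k))) * fk k x) * u x ∂gm n| ≤
      Real.sqrt τ * Real.exp (2 * (α ^ 2 * τ)) *
        Real.sqrt (∫ x, Real.exp (2 * ψ x) * (∑ k ∈ Finset.range K, fk k x) ^ 2 ∂gm n) *
        Real.sqrt (∫ x, Real.exp (-(2 * ψ x)) * ‖fderiv ℝ u x‖ ^ 2 ∂gm n) := by
  let cf : ℝ → ℕ → ℝ := fun s k => Real.exp (-(s * k))
  let a : ℝ → E n → ℝ := fun s => comb K fk (cf s)
  have ha : ∀ s, Pool.Agent.H58.Heat.IsPoly (a s) := fun s => isPoly_comb hp _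
  let V : ℝ → ℝ := fun s => BB ψ (a s) (a s)
  let m : ℕ → ℝ := fun k => ∫ x, fk k x * u x ∂gm n
  have hmi : ∀ k, Integrable (fun x => fk k x * u x) (gm n) := fun k =>
    GB1 _ ((GB5 _ (hp k)).1.continuous.mul hu.continuous).aestronglyMeasurable
      (EG.mul (GB5 _ (hp k)).2.1 h0)
  have hcomb : ∀ c : ℕ → ℝ, ∫ x, comb K fk c x * u x ∂gm n =
      ∑ k ∈ Finset.range K, c k * m k := by
    intro c
    have : ∀ x, comb K fk c x * u x = ∑ k ∈ Finset.range K, c k * (fk k x * u x) := by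
      intro x
      unfold comb
      rw [Finset.sum_mul]
      refine Finset.sum_congr rfl fun k _ => ?_
      ring
    simp only [this]
    rw [integral_finsetSum _ fun k _ => (hmi k).const_mul _]
    simp only [integral_const_mul, m]
  let D : ℝ → ℝ := fun s => ∑ k ∈ Finset.range K, (1 - cf s k) * m k
  have hcf : ∀ s k, HasDerivAt (fun s => cf s k) (-(k * cf s k)) s := by
    intro s k
    have h2 := (((hasDerivAt_id s).mul_const (k : ℝ)).fun_neg).exp
    refine h2.congr_deriv ?_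
    simp only [cf, id]
    ring
  have hD : ∀ s, HasDerivAt D (∫ x, gd (a s) u x ∂gm n) s := by
    intro s
    have h2 : HasDerivAt D (∑ k ∈ Finset.range K, (-(-(k * cf s k))) * m k) s := by
      apply HasDerivAt.fun_sum
      intro k _
      exact ((hcf s k).const_sub 1).mul_const _
    refine h2.congr_deriv ?_
    rw [← GB2 (a s) u (ha s) hu h0 h1]
    have h3 : ∀ x, NN (a s) x = comb K fk (fun k => k * cf s k) x := fun x =>
      NN_comb hp hN _ x
    simp only [h3]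
    rw [hcomb]
    refine Finset.sum_congr rfl fun k _ => ?_
    ring
  have hV : ∀ s, HasDerivAt V (-(2 * BB ψ (a s) (NN (a s)))) s := by
    intro s
    have h2 := BB_deriv hψ hα (K := K) hp cf (fun s k => -(k * cf s k)) hcf s
    refine h2.congr_deriv ?_
    have h3 : comb K fk (fun k => -(k * cf s k)) = fun x => (-1) * NN (a s) x + 0 * NN (a s) x := by
      funext x
      have h4 : NN (a s) x = comb K fk (fun k => k * cf s k) x := NN_comb hp hN _ x
      rw [h4]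
      unfold comb
      rw [zero_mul, add_zero, Finset.mul_sum]
      refine Finset.sum_congr rfl fun k _ => ?_
      ring
    rw [h3, BB_lin hψ hα (ha s) (GB5 _ (ha s)).2.2.2.2 (GB5 _ (ha s)).2.2.2.2]
    ring
  set Q : ℝ := ∫ x, AA ψ (-2) u x ∂gm n with hQ
  have iu := AA_int hψ hα (-2) hu h1
  have hV0 : ∀ s, 0 ≤ V s := fun s => integral_nonneg fun x =>
    mul_nonneg (Real.exp_pos _).le (mul_self_nonneg _)
  have hQ0 : 0 ≤ Q := integral_nonneg fun x =>
    mul_nonneg (Real.exp_pos _).le (Finset.sum_nonneg fun i _ => sq_nonneg _)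
  have main : ∀ σ : ℝ, σ ^ 2 = 1 → ∀ c : ℝ, 0 < c →
      σ * D τ ≤ (Real.exp (4 * α ^ 2 * τ) * V 0) / (2 * c) + c * (τ * Q) / 2 := by
    intro σ hσ c hc
    let H : ℝ → ℝ := fun s => σ * D s + Real.exp (4 * α ^ 2 * (τ - s)) * V s / (2 * c) -
      c * Q / 2 * s
    have hH : ∀ s, HasDerivAt H (σ * (∫ x, gd (a s) u x ∂gm n) +
        (Real.exp (4 * α ^ 2 * (τ - s)) * (4 * α ^ 2 * (-1)) * V s +
          Real.exp (4 * α ^ 2 * (τ - s)) * (-(2 * BB ψ (a s) (NN (a s))))) / (2 * c) -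
        c * Q / 2 * 1) s := by
      intro s
      have h2 : HasDerivAt (fun s => 4 * α ^ 2 * (τ - s)) (4 * α ^ 2 * (-1)) s :=
        ((hasDerivAt_id s).const_sub τ).const_mul _
      exact (((hD s).const_mul σ).add ((h2.exp.mul (hV s)).div_const _)).sub
        ((hasDerivAt_id s).const_mul _)
    have hanti : AntitoneOn H (Set.Icc 0 τ) := by
      apply antitoneOn_of_deriv_nonpos (convex_Icc 0 τ)
      · exact fun s _ => (hH s).continuousAt.continuousWithinAt
      · exact fun s _ => (hH s).differentiableAt.differentiableWithinAt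
      · intro s hs
        rw [interior_Icc] at hs
        rw [(hH s).deriv]
        have d1 := decay hψ hα (ha s)
        have i2 := AA_int hψ hα 2 (isPoly_cd (ha s) 1) (GB5 _ (ha s)).2.2.1
        have ig := gd_int (isPoly_cd (ha s) 1) hu (GB5 _ (ha s)).2.2.1 h1
        have d2 : σ * (∫ x, gd (a s) u x ∂gm n) ≤
            1 / (2 * c) * (∫ x, AA ψ 2 (a s) x ∂gm n) + c / 2 * Q := by
          rw [hQ, ← integral_const_mul, ← integral_const_mul, ← integral_const_mul,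
            ← integral_add (i2.const_mul _) (iu.const_mul _)]
          apply integral_mono (ig.const_mul _)
          · exact (i2.const_mul _).add (iu.const_mul _)
          · intro x
            exact gd_le (a s) u x c hc σ hσ
        have hA0 : 0 ≤ ∫ x, AA ψ 2 (a s) x ∂gm n := integral_nonneg fun x =>
          mul_nonneg (Real.exp_pos _).le (Finset.sum_nonneg fun i _ => sq_nonneg _)
        have hexp : 1 ≤ Real.exp (4 * α ^ 2 * (τ - s)) := by
          apply Real.one_le_exp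
          have : 0 ≤ τ - s := by linarith [hs.2]
          positivity
        set Ex := Real.exp (4 * α ^ 2 * (τ - s))
        set A := ∫ x, AA ψ 2 (a s) x ∂gm n
        have d3 : Ex * (4 * α ^ 2 * (-1)) * V s + Ex * (-(2 * BB ψ (a s) (NN (a s)))) ≤ -A := by
          have e1 : Ex * (4 * α ^ 2 * (-1)) * V s + Ex * (-(2 * BB ψ (a s) (NN (a s)))) =
              -(Ex * (2 * BB ψ (a s) (NN (a s)) + 4 * α ^ 2 * V s)) := by ring
          rw [e1]
          have e2 : A ≤ 2 * BB ψ (a s) (NN (a s)) + 4 * α ^ 2 * V s := d1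
          nlinarith
        have d4 : (Ex * (4 * α ^ 2 * (-1)) * V s + Ex * (-(2 * BB ψ (a s) (NN (a s))))) /
            (2 * c) ≤ -A / (2 * c) := by
          apply div_le_div_of_nonneg_right d3
          positivity
        have d5 : 1 / (2 * c) * A = -(-A / (2 * c)) := by ring
        linarith
    have h3 := hanti (Set.left_mem_Icc.mpr hτ) (Set.right_mem_Icc.mpr hτ) hτ
    have h4 : D 0 = 0 := by simp [D, cf]
    simp only [H, sub_self, mul_zero, Real.exp_zero, one_mul, sub_zero, h4, zero_add] at h3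
    have h5 : 0 ≤ V τ / (2 * c) := div_nonneg (hV0 τ) (by positivity)
    have h6 : c * (τ * Q) / 2 = c * Q / 2 * τ := by ring
    linarith
  have hP0 : 0 ≤ Real.exp (4 * α ^ 2 * τ) * V 0 := mul_nonneg (Real.exp_pos _).le (hV0 0)
  have hR0 : 0 ≤ τ * Q := mul_nonneg hτ hQ0
  have r1 := optim (1 * D τ) _ _ hP0 hR0 (main 1 (by norm_num))
  have r2 := optim ((-1) * D τ) _ _ hP0 hR0 (main (-1) (by norm_num))
  have r3 : |D τ| ≤ Real.sqrt ((Real.exp (4 * α ^ 2 * τ) * V 0) * (τ * Q)) := by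
    rw [abs_le]
    constructor <;> linarith
  have r4 : Real.sqrt ((Real.exp (4 * α ^ 2 * τ) * V 0) * (τ * Q)) =
      Real.sqrt τ * Real.exp (2 * (α ^ 2 * τ)) * Real.sqrt (V 0) * Real.sqrt Q := by
    have e1 : Real.exp (4 * α ^ 2 * τ) = Real.exp (2 * (α ^ 2 * τ)) ^ 2 := by
      rw [← Real.exp_nat_mul]; congr 1; push_cast; ring
    rw [Real.sqrt_mul hP0, Real.sqrt_mul (Real.exp_pos _).le, Real.sqrt_mul hτ, e1,
      Real.sqrt_sq (Real.exp_pos _).le]
    ring
  have r5 : V 0 = ∫ x, Real.exp (2 * ψ x) * (∑ k ∈ Finset.range K, fk k x) ^ 2 ∂gm n := by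
    have z1 : a 0 = fun x => ∑ k ∈ Finset.range K, fk k x := by
      funext x; simp [a, comb, cf]
    simp only [V, z1, BB]
    congr 1
    funext x
    ring
  have r6 : Q = ∫ x, Real.exp (-(2 * ψ x)) * ‖fderiv ℝ u x‖ ^ 2 ∂gm n := by
    rw [hQ]
    congr 1
    funext x
    have h3 := (GB6 u u x).2
    unfold gd at h3
    unfold AA
    rw [← h3]
    congr 1
    · congr 1; ring
    · exact Finset.sum_congr rfl fun i _ => by ring
  have r7 : D τ = ∫ x, (∑ k ∈ Finset.range K, (1 - Real.exp (-(τ * k))) * fk k x) * u x ∂gm n := by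
    have := hcomb (fun k => 1 - cf τ k)
    exact this.symm
  rw [← r7, ← r5, ← r6, ← r4]
  exact r3

end Pool.Agent.H20.Heat
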