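import Pool.Agent.H13.Heat.GBb

/-!
Helper file for project HEAT: growth bounds, linear combinations of polynomial functions.
-/

namespace Pool.Agent.H20.Heat

open MeasureTheory ProbabilityTheory Pool.Agent.H58.Heat
open Pool.Agent.H13.Heat (GB1 GB2 GB5 GB6)

variable {n : ℕ}

theorem EG.pos {W : Type*} [NormedAddCommGroup W] {f : E n → W} (h : EG f) :
    ∃ C : ℝ, 0 < C ∧ ∀ x, ‖f x‖ ≤ C * Real.exp (C * ‖x‖) := by
  obtain ⟨C, hC⟩ := h
  refine ⟨|C| + 1, by positivity, fun x => (hC x).trans ?_⟩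
  have h1 : Real.exp (C * ‖x‖) ≤ Real.exp ((|C| + 1) * ‖x‖) := by
    apply Real.exp_le_exp.mpr
    have := le_abs_self C
    have := norm_nonneg x
    nlinarith
  have h2 : C ≤ |C| + 1 := by have := le_abs_self C; linarith
  have h3 := Real.exp_pos (C * ‖x‖)
  have h4 : 0 ≤ |C| + 1 := by positivity
  nlinarith [mul_le_mul_of_nonneg_right h2 h3.le, mul_le_mul_of_nonneg_left h1 h4]

theorem EG.mono' {W W' : Type*} [NormedAddCommGroup W] [NormedAddCommGroup W'] {f : E n → W}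
    {g : E n → W'} (h : EG f) (hg : ∀ x, ‖g x‖ ≤ ‖f x‖) : EG g := by
  obtain ⟨C, hC⟩ := h
  exact ⟨C, fun x => (hg x).trans (hC x)⟩

theorem EG.const (c : ℝ) : EG (fun _ : E n => c) := by
  refine ⟨|c|, fun x => ?_⟩
  have h1 : 1 ≤ Real.exp (|c| * ‖x‖) := by
    apply Real.one_le_exp
    positivity
  have h2 := abs_nonneg c
  rw [Real.norm_eq_abs]
  nlinarith

theorem EG.mul {f g : E n → ℝ} (hf : EG f) (hg : EG g) : EG (fun x => f x * g x) := by
  obtain ⟨C, hC0, hC⟩ := EG.pos hf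
  obtain ⟨D, hD0, hD⟩ := EG.pos hg
  refine ⟨C * D + C + D, fun x => ?_⟩
  rw [norm_mul]
  calc ‖f x‖ * ‖g x‖ ≤ (C * Real.exp (C * ‖x‖)) * (D * Real.exp (D * ‖x‖)) :=
        mul_le_mul (hC x) (hD x) (norm_nonneg _) (by positivity)
    _ = (C * D) * Real.exp ((C + D) * ‖x‖) := by
        rw [add_mul, Real.exp_add]; ring
    _ ≤ (C * D + C + D) * Real.exp ((C * D + C + D) * ‖x‖) := by
        apply mul_le_mul
        · linarith
        · apply Real.exp_le_exp.mpr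
          apply mul_le_mul_of_nonneg_right _ (norm_nonneg x)
          have : 0 < C * D := by positivity
          linarith
        · positivity
        · positivity

theorem EG.add {f g : E n → ℝ} (hf : EG f) (hg : EG g) : EG (fun x => f x + g x) := by
  obtain ⟨C, hC0, hC⟩ := EG.pos hf
  obtain ⟨D, hD0, hD⟩ := EG.pos hg
  refine ⟨C + D, fun x => (norm_add_le _ _).trans ?_⟩
  have h1 : Real.exp (C * ‖x‖) ≤ Real.exp ((C + D) * ‖x‖) := by
    apply Real.exp_le_exp.mpr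
    have := norm_nonneg x
    nlinarith
  have h2 : Real.exp (D * ‖x‖) ≤ Real.exp ((C + D) * ‖x‖) := by
    apply Real.exp_le_exp.mpr
    have := norm_nonneg x
    nlinarith
  nlinarith [hC x, hD x]

theorem EG.norm {W : Type*} [NormedAddCommGroup W] {f : E n → W} (h : EG f) :
    EG (fun x => ‖f x‖) := EG.mono' h (fun x => by simp)

theorem EG.sum {ι : Type*} (s : Finset ι) {f : ι → E n → ℝ} (hf : ∀ i ∈ s, EG (f i)) :
    EG (fun x => ∑ i ∈ s, f i x) := by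
  classical
  induction s using Finset.induction_on with
  | empty => simpa using EG.const (n := n) 0
  | insert a s ha ih =>
    simp only [Finset.sum_insert ha]
    exact EG.add (hf a (by simp)) (ih fun i hi => hf i (by simp [hi]))

/-- functions with bounded gradient grow at most linearly -/
theorem lin_growth (ψ : E n → ℝ) (hψ : ContDiff ℝ 1 ψ) (α : ℝ)
    (hα : ∀ x, ‖fderiv ℝ ψ x‖ ≤ α) (x : E n) : |ψ x| ≤ |ψ 0| + α * ‖x‖ := by
  have h := Convex.norm_image_sub_le_of_norm_fderiv_le (𝕜 := ℝ) (f := ψ) (C := α)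
    (s := Set.univ) (x := 0) (y := x) (fun y _ => hψ.differentiable (by simp) y)
    (fun y _ => hα y) convex_univ (Set.mem_univ _) (Set.mem_univ _)
  rw [Real.norm_eq_abs, sub_zero] at h
  have h1 : |ψ x| - |ψ 0| ≤ |ψ x - ψ 0| := abs_sub_abs_le_abs_sub _ _
  linarith

theorem EG.exp_mul (ψ : E n → ℝ) (hψ : ContDiff ℝ 1 ψ) (α : ℝ)
    (hα : ∀ x, ‖fderiv ℝ ψ x‖ ≤ α) (c : ℝ) : EG (fun x => Real.exp (c * ψ x)) := by
  have h0 : 0 ≤ α := (norm_nonneg _).trans (hα 0)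
  refine ⟨Real.exp (|c| * |ψ 0|) + |c| * α, fun x => ?_⟩
  rw [Real.norm_eq_abs, abs_of_pos (Real.exp_pos _)]
  have h1 : c * ψ x ≤ |c| * |ψ 0| + |c| * α * ‖x‖ := by
    calc c * ψ x ≤ |c * ψ x| := le_abs_self _
      _ = |c| * |ψ x| := abs_mul _ _
      _ ≤ |c| * (|ψ 0| + α * ‖x‖) :=
        mul_le_mul_of_nonneg_left (lin_growth ψ hψ α hα x) (abs_nonneg c)
      _ = _ := by ring
  have hx := norm_nonneg x
  have hca : 0 ≤ |c| * α := by positivity
  have he := Real.exp_pos (|c| * |ψ 0|)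
  calc Real.exp (c * ψ x) ≤ Real.exp (|c| * |ψ 0| + |c| * α * ‖x‖) := Real.exp_le_exp.mpr h1
    _ = Real.exp (|c| * |ψ 0|) * Real.exp (|c| * α * ‖x‖) := Real.exp_add _ _
    _ ≤ (Real.exp (|c| * |ψ 0|) + |c| * α) *
          Real.exp ((Real.exp (|c| * |ψ 0|) + |c| * α) * ‖x‖) := by
        apply mul_le_mul
        · linarith
        · apply Real.exp_le_exp.mpr
          nlinarith [mul_nonneg he.le hx]
        · positivity
        · positivity

/-- linear combination -/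
noncomputable def comb (K : ℕ) (fk : ℕ → E n → ℝ) (c : ℕ → ℝ) (x : E n) : ℝ :=
  ∑ k ∈ Finset.range K, c k * fk k x

theorem isPoly_cd {f : E n → ℝ} (hf : IsPoly f) (m : WithTop ℕ∞) :
    ContDiff ℝ m f := (GB5 f hf).1.of_le le_top

theorem isPoly_comb {K : ℕ} {fk : ℕ → E n → ℝ} (hp : ∀ k, IsPoly (fk k)) (c : ℕ → ℝ) :
    IsPoly (comb K fk c) := by
  choose q hq using hp
  refine ⟨∑ k ∈ Finset.range K, MvPolynomial.C (c k) * q k, fun x => ?_⟩
  simp [comb, hq]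

theorem fderiv_comb {K : ℕ} {fk : ℕ → E n → ℝ} (hp : ∀ k, Differentiable ℝ (fk k)) (c : ℕ → ℝ)
    (x : E n) : fderiv ℝ (comb K fk c) x = ∑ k ∈ Finset.range K, c k • fderiv ℝ (fk k) x := by
  have h : comb K fk c = fun x => ∑ k ∈ Finset.range K, (c k • fk k) x := by
    funext x; simp [comb]
  rw [h]
  have h2 : HasFDerivAt (fun x => ∑ k ∈ Finset.range K, (c k • fk k) x)
      (∑ k ∈ Finset.range K, c k • fderiv ℝ (fk k) x) x := by
    apply HasFDerivAt.fun_sum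
    intro k _
    exact (hp k x).hasFDerivAt.const_smul (c k)
  exact h2.fderiv

theorem pd_comb {K : ℕ} {fk : ℕ → E n → ℝ} (hp : ∀ k, Differentiable ℝ (fk k)) (c : ℕ → ℝ)
    (i : Fin n) : pd (comb K fk c) i = comb K (fun k => pd (fk k) i) c := by
  funext x
  simp only [pd, fderiv_comb hp c x, comb]
  simp

theorem NN_comb {K : ℕ} {fk : ℕ → E n → ℝ} (hp : ∀ k, IsPoly (fk k))
    (hN : ∀ k x, NN (fk k) x = k * fk k x) (c : ℕ → ℝ) (x : E n) :
    NN (comb K fk c) x = comb K fk (fun k => k * c k) x := by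
  have hd : ∀ k, Differentiable ℝ (fk k) := fun k =>
    (isPoly_cd (hp k) 1).differentiable (by simp)
  have hd2 : ∀ i k, Differentiable ℝ (pd (fk k) i) := fun i k =>
    (isPoly_cd ((GB5 (fk k) (hp k)).2.2.2.1 i) 1).differentiable (by simp)
  have h1 : NN (comb K fk c) x = ∑ k ∈ Finset.range K, c k * NN (fk k) x := by
    unfold NN
    simp only [Finset.mul_sum]
    rw [Finset.sum_comm]
    refine Finset.sum_congr rfl fun i _ => ?_
    rw [pd_comb hd c i, pd_comb (hd2 i) c i]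
    simp only [comb, Finset.mul_sum]
    rw [← Finset.sum_sub_distrib]
    refine Finset.sum_congr rfl fun k _ => ?_
    ring
  rw [h1]
  unfold comb
  refine Finset.sum_congr rfl fun k _ => ?_
  rw [hN]; ring

/-- the weight -/
theorem wt_cd {ψ : E n → ℝ} (hψ : ContDiff ℝ 1 ψ) (c : ℝ) :
    ContDiff ℝ 1 (fun x => Real.exp (c * ψ x)) :=
  Real.contDiff_exp.comp (contDiff_const.mul hψ)

theorem fderiv_wt_mul {ψ : E n → ℝ} (hψ : ContDiff ℝ 1 ψ) {b : E n → ℝ} (hb : ContDiff ℝ 1 b)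
    (c : ℝ) (x : E n) :
    fderiv ℝ (fun x => Real.exp (c * ψ x) * b x) x =
      Real.exp (c * ψ x) • fderiv ℝ b x + (b x * (Real.exp (c * ψ x) * c)) • fderiv ℝ ψ x := by
  have h1 : HasFDerivAt ψ (fderiv ℝ ψ x) x :=
    (hψ.differentiable (by simp) x).hasFDerivAt
  have h2 : HasFDerivAt b (fderiv ℝ b x) x :=
    (hb.differentiable (by simp) x).hasFDerivAt
  have h3 := ((h1.const_mul c).exp).mul h2
  refine Eq.trans h3.fderiv ?_
  simp only [smul_smul]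

theorem wt_mul_EG {ψ : E n → ℝ} (hψ : ContDiff ℝ 1 ψ) {α : ℝ}
    (hα : ∀ x, ‖fderiv ℝ ψ x‖ ≤ α) {b : E n → ℝ} (hb : ContDiff ℝ 1 b)
    (h0 : EG b) (h1 : EG (fderiv ℝ b)) (c : ℝ) :
    EG (fderiv ℝ (fun x => Real.exp (c * ψ x) * b x)) := by
  have hE := EG.exp_mul ψ hψ α hα c
  have hα0 : 0 ≤ α := (norm_nonneg _).trans (hα 0)
  have h2 : EG (fun x => Real.exp (c * ψ x) * ‖fderiv ℝ b x‖ +
      |b x| * (Real.exp (c * ψ x) * |c|) * α) := by
    refine EG.add (EG.mul hE (EG.norm h1)) ?_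
    refine EG.mul (EG.mul (EG.norm h0) (EG.mul hE (EG.const _))) (EG.const _)
  refine EG.mono' h2 fun x => ?_
  rw [fderiv_wt_mul hψ hb]
  refine (norm_add_le _ _).trans ?_
  rw [norm_smul, norm_smul, norm_mul, norm_mul]
  simp only [Real.norm_eq_abs, abs_of_pos (Real.exp_pos _)]
  rw [abs_of_nonneg (a := Real.exp (c * ψ x) * ‖fderiv ℝ b x‖ +
      |b x| * (Real.exp (c * ψ x) * |c|) * α) (by positivity)]
  have := hα x
  gcongr

/-- integration by parts with weight -/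
theorem ibp {ψ : E n → ℝ} (hψ : ContDiff ℝ 1 ψ) {α : ℝ}
    (hα : ∀ x, ‖fderiv ℝ ψ x‖ ≤ α) {a b : E n → ℝ} (ha : IsPoly a) (hb : IsPoly b) (c : ℝ) :
    ∫ x, NN a x * (Real.exp (c * ψ x) * b x) ∂gm n =
      ∫ x, ∑ i, Real.exp (c * ψ x) * (pd a i x * (pd b i x + c * b x * pd ψ i x)) ∂gm n := by
  have hbc := isPoly_cd hb 1
  obtain ⟨-, hb0, hb1, -, -⟩ := GB5 b hb
  rw [GB2 a (fun x => Real.exp (c * ψ x) * b x) ha ((wt_cd hψ c).mul hbc)
    (EG.mul (EG.exp_mul ψ hψ α hα c) hb0) (wt_mul_EG hψ hα hbc hb0 hb1 c)]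
  congr 1
  funext x
  unfold gd
  refine Finset.sum_congr rfl fun i _ => ?_
  have h1 : pd (fun x => Real.exp (c * ψ x) * b x) i x =
      Real.exp (c * ψ x) * (pd b i x + c * b x * pd ψ i x) := by
    unfold pd
    rw [fderiv_wt_mul hψ hbc]
    simp only [add_apply, smul_apply, smul_eq_mul]
    ring
  rw [h1]; ring

theorem poly_int {ψ : E n → ℝ} (hψ : ContDiff ℝ 1 ψ) {α : ℝ}
    (hα : ∀ x, ‖fderiv ℝ ψ x‖ ≤ α) (c : ℝ) {f : E n → ℝ} (hf : Continuous f) (h : EG f) :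
    Integrable (fun x => Real.exp (c * ψ x) * f x) (gm n) := by
  apply GB1
  · exact ((wt_cd hψ c).continuous.mul hf).aestronglyMeasurable
  · exact EG.mul (EG.exp_mul ψ hψ α hα c) h

/-- bilinear form -/
noncomputable def BB (ψ : E n → ℝ) (a b : E n → ℝ) : ℝ :=
  ∫ x, Real.exp (2 * ψ x) * (a x * b x) ∂gm n

theorem BB_comm (ψ : E n → ℝ) (a b : E n → ℝ) : BB ψ a b = BB ψ b a := by
  unfold BB
  congr 1
  funext x
  ring

theorem BB_comb {ψ : E n → ℝ} (hψ : ContDiff ℝ 1 ψ) {α : ℝ}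
    (hα : ∀ x, ‖fderiv ℝ ψ x‖ ≤ α) {K : ℕ} {fk : ℕ → E n → ℝ} (hp : ∀ k, IsPoly (fk k))
    (c d : ℕ → ℝ) :
    BB ψ (comb K fk c) (comb K fk d) =
      ∑ k ∈ Finset.range K, ∑ l ∈ Finset.range K, c k * d l * BB ψ (fk k) (fk l) := by
  have hint : ∀ k l, Integrable (fun x => Real.exp (2 * ψ x) * (fk k x * fk l x)) (gm n) :=
    fun k l => poly_int hψ hα 2
      ((isPoly_cd (hp k) 1).continuous.mul (isPoly_cd (hp l) 1).continuous)
      (EG.mul (GB5 _ (hp k)).2.1 (GB5 _ (hp l)).2.1)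
  have h1 : ∀ x, Real.exp (2 * ψ x) * (comb K fk c x * comb K fk d x) =
      ∑ k ∈ Finset.range K, ∑ l ∈ Finset.range K,
        c k * d l * (Real.exp (2 * ψ x) * (fk k x * fk l x)) := by
    intro x
    unfold comb
    rw [Finset.sum_mul_sum, Finset.mul_sum]
    refine Finset.sum_congr rfl fun k _ => ?_
    rw [Finset.mul_sum]
    refine Finset.sum_congr rfl fun l _ => ?_
    ring
  unfold BB
  simp only [h1]
  rw [integral_finsetSum]
  · refine Finset.sum_congr rfl fun k _ => ?_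
    rw [integral_finsetSum]
    · refine Finset.sum_congr rfl fun l _ => ?_
      rw [integral_const_mul]
    · intro l _
      exact (hint k l).const_mul _
  · intro k _
    exact integrable_finsetSum _ fun l _ => (hint k l).const_mul _

theorem BB_deriv {ψ : E n → ℝ} (hψ : ContDiff ℝ 1 ψ) {α : ℝ}
    (hα : ∀ x, ‖fderiv ℝ ψ x‖ ≤ α) {K : ℕ} {fk : ℕ → E n → ℝ} (hp : ∀ k, IsPoly (fk k))
    (c c' : ℝ → ℕ → ℝ) (hc : ∀ s k, HasDerivAt (fun s => c s k) (c' s k) s) (s : ℝ) :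
    HasDerivAt (fun s => BB ψ (comb K fk (c s)) (comb K fk (c s)))
      (2 * BB ψ (comb K fk (c s)) (comb K fk (c' s))) s := by
  have h1 : 2 * BB ψ (comb K fk (c s)) (comb K fk (c' s)) =
      ∑ k ∈ Finset.range K, ∑ l ∈ Finset.range K,
        (c' s k * c s l + c s k * c' s l) * BB ψ (fk k) (fk l) := by
    have h2 := BB_comm ψ (comb K fk (c s)) (comb K fk (c' s))
    have h3 : 2 * BB ψ (comb K fk (c s)) (comb K fk (c' s)) =
        BB ψ (comb K fk (c' s)) (comb K fk (c s)) + BB ψ (comb K fk (c s)) (comb K fk (c' s)) := by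
      linarith
    rw [h3, BB_comb hψ hα hp, BB_comb hψ hα hp, ← Finset.sum_add_distrib]
    refine Finset.sum_congr rfl fun k _ => ?_
    rw [← Finset.sum_add_distrib]
    refine Finset.sum_congr rfl fun l _ => ?_
    ring
  rw [h1]
  have h4 : (fun s => BB ψ (comb K fk (c s)) (comb K fk (c s))) = fun s =>
      ∑ k ∈ Finset.range K, ∑ l ∈ Finset.range K, c s k * c s l * BB ψ (fk k) (fk l) := by
    funext s
    exact BB_comb hψ hα hp _ _
  rw [h4]
  apply HasDerivAt.fun_sum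
  intro k _
  apply HasDerivAt.fun_sum
  intro l _
  exact ((hc s k).mul (hc s l)).mul_const _

theorem pd_bdd {ψ : E n → ℝ} {α : ℝ} (hα : ∀ x, ‖fderiv ℝ ψ x‖ ≤ α) (i : Fin n) (x : E n) :
    |pd ψ i x| ≤ α := by
  unfold pd
  refine ((fderiv ℝ ψ x).le_opNorm _).trans ?_
  simpa using hα x

theorem pd_cont {ψ : E n → ℝ} (hψ : ContDiff ℝ 1 ψ) (i : Fin n) : Continuous (pd ψ i) :=
  (hψ.continuous_fderiv (by simp)).clm_apply continuous_const

theorem pd_EG {ψ : E n → ℝ} {α : ℝ} (hα : ∀ x, ‖fderiv ℝ ψ x‖ ≤ α) (i : Fin n) :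
    EG (pd ψ i) :=
  EG.mono' (EG.const α) fun x => by
    rw [Real.norm_eq_abs, Real.norm_eq_abs]
    exact (pd_bdd hα i x).trans (le_abs_self _)

/-- the integrand after integration by parts -/
noncomputable def JJ (ψ : E n → ℝ) (c : ℝ) (a b : E n → ℝ) (x : E n) : ℝ :=
  ∑ i, Real.exp (c * ψ x) * (pd a i x * (pd b i x + c * b x * pd ψ i x))

theorem JJ_int {ψ : E n → ℝ} (hψ : ContDiff ℝ 1 ψ) {α : ℝ}
    (hα : ∀ x, ‖fderiv ℝ ψ x‖ ≤ α) {a b : E n → ℝ} (ha : IsPoly a) (hb : IsPoly b) (c : ℝ) :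
    Integrable (JJ ψ c a b) (gm n) := by
  obtain ⟨ha2, ha0, -, hap, -⟩ := GB5 a ha
  obtain ⟨hb2, hb0, -, hbp, -⟩ := GB5 b hb
  apply integrable_finsetSum _ fun i _ => ?_
  apply poly_int hψ hα c
  · exact (pd_cont (isPoly_cd ha 1) i).mul ((pd_cont (isPoly_cd hb 1) i).add
      ((continuous_const.mul hb2.continuous).mul (pd_cont hψ i)))
  · exact EG.mul (GB5 _ (hap i)).2.1 (EG.add (GB5 _ (hbp i)).2.1
      (EG.mul (EG.mul (EG.const c) hb0) (pd_EG hα i)))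

theorem sum_pd_sq {ψ : E n → ℝ} {α : ℝ} (hα : ∀ x, ‖fderiv ℝ ψ x‖ ≤ α) (x : E n) :
    ∑ i, pd ψ i x ^ 2 ≤ α ^ 2 := by
  have h1 := (GB6 ψ ψ x).2
  unfold gd at h1
  have h2 : ∑ i, pd ψ i x ^ 2 = ‖fderiv ℝ ψ x‖ ^ 2 := by
    rw [← h1]
    exact Finset.sum_congr rfl fun i _ => by ring
  rw [h2]
  have := hα x
  have := norm_nonneg (fderiv ℝ ψ x)
  nlinarith

theorem BB_NN {ψ : E n → ℝ} (hψ : ContDiff ℝ 1 ψ) {α : ℝ}
    (hα : ∀ x, ‖fderiv ℝ ψ x‖ ≤ α) {a b : E n → ℝ} (ha : IsPoly a) (hb : IsPoly b) :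
    BB ψ b (NN a) = ∫ x, JJ ψ 2 a b x ∂gm n := by
  unfold BB JJ
  rw [← ibp hψ hα ha hb]
  congr 1
  funext x
  ring

theorem BB_lin {ψ : E n → ℝ} (hψ : ContDiff ℝ 1 ψ) {α : ℝ}
    (hα : ∀ x, ‖fderiv ℝ ψ x‖ ≤ α) {a b1 b2 : E n → ℝ} (ha : IsPoly a) (hb1 : IsPoly b1)
    (hb2 : IsPoly b2) (c d : ℝ) :
    BB ψ a (fun x => c * b1 x + d * b2 x) = c * BB ψ a b1 + d * BB ψ a b2 := by
  have hi : ∀ b : E n → ℝ, Pool.Agent.H58.Heat.IsPoly b → Integrable (fun x => Real.exp (2 * ψ x) * (a x * b x)) (gm n) :=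
    fun b hb => poly_int hψ hα 2 ((GB5 a ha).1.continuous.mul (GB5 b hb).1.continuous)
      (EG.mul (GB5 a ha).2.1 (GB5 b hb).2.1)
  unfold BB
  rw [← integral_const_mul, ← integral_const_mul, ← integral_add ((hi b1 hb1).const_mul c)
    ((hi b2 hb2).const_mul d)]
  congr 1
  funext x
  ring

end Pool.Agent.H20.Heat
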